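import Pool.Agent.MWHP.StmtsN
import Pool.Agent.Helper81_MWS.MJE

/-!
# Row MJN of block MWHP (MP_23468a_al), period `n`: the distributive law from join prime edges
-/

set_option autoImplicit false

namespace Pool.Agent.MWHP.H81

open Pool.Agent.Helper14_MV Pool.Agent.Helper2_MV Pool.Agent.MVO Pool.Agent.MWL Pool.Agent.MWS
open Pool.Agent.MWA Pool.Agent.MWH Pool.Agent.MWHP
open Pool.Agent.MWS.H81 (psi_le psi_le_sup le_psi psi_nc)

/-- **MJN** -/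
theorem mjn (nsn : NsnStmt) : MjnStmt := by
  intro n β hcap hE ρ σ τ hρ hσ hτ nρ nσ nτ k B B' oB oB' tB tB' hsh hsup hr
  have nsup : NC2 (FIC.sup ρ σ) := nsn β ρ σ hcap hρ hσ nρ nσ
  have hβsup : β ≤ FIC.sup ρ σ := FIC.le_trans' hρ (FIC.le_sup_left _ _)
  obtain ⟨L, hL, hiff⟩ := hE k B B' oB oB' tB tB' hsh
  refine (hiff (psi ρ σ τ) (le_psi hρ hτ) (psi_nc nτ)).mpr fun e he => ?_
  have e1 := (hiff _ hβsup nsup).mp hsup e he
  have e2 := (hiff τ hτ nτ).mp hr e he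
  rcases hL e he ρ σ hρ hσ nρ nσ e1 with h | h
  · exact FIC.le_sup_left (FIC.inf ρ τ) (FIC.inf σ τ) _ _ ⟨h, e2⟩
  · exact FIC.le_sup_right (FIC.inf ρ τ) (FIC.inf σ τ) _ _ ⟨h, e2⟩

end Pool.Agent.MWHP.H81
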