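import Pool.Agent.MWHP.StmtsN
import Pool.Agent.Helper81_MWS.MJE

/-!
# Row MON of block MWHP (MP_23468a_al), period `n`: reduction to the same types
-/

set_option autoImplicit false

namespace Pool.Agent.MWHP.H81

open Pool.Agent.Helper14_MV Pool.Agent.Helper2_MV Pool.Agent.MVO Pool.Agent.MWL Pool.Agent.MWS
open Pool.Agent.MWA Pool.Agent.MWH Pool.Agent.MWHP
open Pool.Agent.MWS.H81 (psi_le psi_le_sup le_psi psi_nc)

/-- **MON** -/
theorem mon (one : Pool.Agent.MVO.OneStmt) (law : Pool.Agent.MWL.LawStmt)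
    (chq : Pool.Agent.MWA.ChqStmt) (ndq : Pool.Agent.MWA.NdqStmt) (lrn : LrnnStmt)
    (shn : ShnStmt) : MonStmt := by
  intro n β hb hs ρ σ τ hρ hσ hτ nρ nσ nτ k B B' oB oB' tB tB' hsup hr
  have hψτ := psi_le ρ σ τ
  have hψs := psi_le_sup ρ σ τ
  have hβψ : β ≤ psi ρ σ τ := le_psi hρ hτ
  have nψ : NC2 (psi ρ σ τ) := psi_nc nτ
  have claim : ∀ x, NS k x → L1 (psi ρ σ τ) k (ty B x) (ty B' x) := by
    intro x hx
    obtain ⟨B'', he, oB'', -, hch⟩ := chq β ρ σ hb.cap hρ hσ nρ nσ k B (asm k B') oB hsup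
    have heq := uniq oB'.ok oB''.ok he
    have hJ : Jn (FC.ofFIC ρ) (FC.ofFIC σ) k (ty B x) (ty B'' x) := by
      refine Relation.ReflTransGen.lift (fun C => ty C x) ?_ _ _ hch
      rintro C D ⟨oC, oD, -, h | h⟩
      · exact Or.inl (one.1 ρ k C D x hx oC.ok oD.ok h)
      · exact Or.inr (one.1 σ k C D x hx oC.ok oD.ok h)
    have hlast : (FC.ofFIC ρ).R k (ty B'' x) (ty B' x) := by
      refine (FC.ofFIC ρ).ext (fun j _ => rfl) (fun j hj => ?_) ((FC.ofFIC ρ).refl k (ty B'' x))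
      show (B'' j).count x = (B' j).count x
      rw [heq j hj]
    exact law n (FC.ofFIC ρ) (FC.ofFIC σ) (FC.ofFIC τ) (FC.ofFIC (psi ρ σ τ))
      (lrn n β ρ hb hρ) (lrn n β σ hb hσ) (lrn n β τ hb hτ) (lrn n β _ hb hβψ)
      (ndq β ρ hb.cap hρ nρ) (ndq β σ hb.cap hσ nσ) (ndq β τ hb.cap hτ nτ)
      (fun k a b h h' => FIC.le_sup_left (FIC.inf ρ τ) (FIC.inf σ τ) _ _ ⟨h, h'⟩)
      (fun k a b h h' => FIC.le_sup_right (FIC.inf ρ τ) (FIC.inf σ τ) _ _ ⟨h, h'⟩)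
      k (ty B x) (ty B' x) (one.1 τ k B B' x hx oB.ok oB'.ok hr) (hJ.tail (Or.inl hlast))
  obtain ⟨C, C', oC, oC', sC, sC', hsh, hC, hC'⟩ := shn n β (psi ρ σ τ) hb hβψ nψ k B B' oB oB'
    claim
  have tC : Two01 k C := by
    intro j hj c hc
    obtain ⟨i, hi, h⟩ := sC c ⟨j, hj, hc⟩
    exact tB i hi c h
  have tC' : Two01 k C' := by
    intro j hj c hc
    obtain ⟨i, hi, h⟩ := sC' c ⟨j, hj, hc⟩
    exact tB' i hi c h
  have h1 : RR (FIC.sup ρ σ) (asm k C) (asm k C') :=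
    (FIC.sup ρ σ).trans ((FIC.sup ρ σ).symm (hψs _ _ hC))
      ((FIC.sup ρ σ).trans hsup (hψs _ _ hC'))
  have h2 : RR τ (asm k C) (asm k C') :=
    τ.trans (τ.symm (hψτ _ _ hC)) (τ.trans hr (hψτ _ _ hC'))
  have h3 := hs ρ σ τ hρ hσ hτ nρ nσ nτ k C C' oC oC' tC tC' hsh h1 h2
  exact (psi ρ σ τ).trans hC ((psi ρ σ τ).trans h3 ((psi ρ σ τ).symm hC'))

end Pool.Agent.MWHP.H81
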